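import Mathlib

/-!
# List colouring of bipartite graphs by a decreasing potential (MP_e6d343_co)

Colours are processed one after the other; each colour is given to an independent set of maximal
weight.  The weight of a vertex grows with every missed colour of its list.
-/

namespace Pool.Agent.LCD.H6

open Finset

variable {V : Type*} [DecidableEq V]

/-- discrete layer cake inequality -/
theorem layer (w : V → ℝ) (hw : ∀ v, 0 ≤ w v) : ∀ (n : ℕ) (Y I : Finset V) (φ ψ : V → ℝ),
    Y.card = n → (∀ v ∈ Y, 0 ≤ φ v) → (∀ v ∈ I, 0 ≤ ψ v) →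
    (∀ s : ℝ, 0 < s → ∑ v ∈ Y with s ≤ φ v, w v ≤ ∑ v ∈ I with s ≤ ψ v, w v) →
    ∑ v ∈ Y, w v * φ v ≤ ∑ v ∈ I, w v * ψ v := by
  intro n
  induction n using Nat.strong_induction_on with
  | _ n ih =>
  intro Y I φ ψ hn hφ hψ h
  rcases Y.eq_empty_or_nonempty with rfl | hne
  · rw [Finset.sum_empty]
    exact Finset.sum_nonneg fun v hv => mul_nonneg (hw v) (hψ v hv)
  obtain ⟨a, haY, hamin⟩ := Y.exists_min_image φ hne
  set m := φ a with hm
  have hm0 : 0 ≤ m := hφ a haY
  -- split off the minimum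
  have e1 : ∑ v ∈ Y, w v * φ v =
      m * ∑ v ∈ Y, w v + ∑ v ∈ Y with m < φ v, w v * (φ v - m) := by
    rw [Finset.sum_filter, Finset.mul_sum, ← Finset.sum_add_distrib]
    refine Finset.sum_congr rfl fun v hv => ?_
    split_ifs with h1
    · ring
    · have : φ v = m := le_antisymm (not_lt.1 h1) (hamin v hv)
      rw [this]; ring
  have e2 : m * ∑ v ∈ I with m ≤ ψ v, w v + ∑ v ∈ I with m < ψ v, w v * (ψ v - m) ≤
      ∑ v ∈ I, w v * ψ v := by
    rw [Finset.sum_filter, Finset.sum_filter, Finset.mul_sum, ← Finset.sum_add_distrib]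
    refine Finset.sum_le_sum fun v hv => ?_
    have h0 := hw v
    have h1 := hψ v hv
    split_ifs with h2 h3 h3
    · apply le_of_eq; ring
    · have : ψ v = m := le_antisymm (not_lt.1 h3) h2
      rw [this]; apply le_of_eq; ring
    · exact absurd h3.le h2
    · have := mul_nonneg h0 h1
      linarith
  have h3 : m * ∑ v ∈ Y, w v ≤ m * ∑ v ∈ I with m ≤ ψ v, w v := by
    rcases hm0.eq_or_lt with h0 | h0
    · rw [← h0, zero_mul, zero_mul]
    · refine mul_le_mul_of_nonneg_left ?_ hm0
      have := h m h0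
      have e : Y.filter (fun v => m ≤ φ v) = Y :=
        Finset.filter_true_of_mem fun v hv => hamin v hv
      rwa [e] at this
  have hlt : (Y.filter (fun v => m < φ v)).card < n := by
    rw [← hn]
    apply Finset.card_lt_card
    rw [Finset.ssubset_iff_of_subset (Finset.filter_subset _ _)]
    exact ⟨a, haY, fun hh => lt_irrefl _ (Finset.mem_filter.1 hh).2⟩
  have h4 := ih _ hlt (Y.filter (fun v => m < φ v)) (I.filter (fun v => m < ψ v))
    (fun v => φ v - m) (fun v => ψ v - m) rfl
    (fun v hv => sub_nonneg.2 (Finset.mem_filter.1 hv).2.le)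
    (fun v hv => sub_nonneg.2 (Finset.mem_filter.1 hv).2.le) ?_
  · linarith
  intro s hs
  have h5 := h (s + m) (by linarith)
  have e3 : (Y.filter (fun v => m < φ v)).filter (fun v => s ≤ φ v - m) =
      Y.filter (fun v => s + m ≤ φ v) := by
    rw [Finset.filter_filter]
    refine Finset.filter_congr fun v _ => ?_
    constructor
    · rintro ⟨_, h⟩; linarith
    · intro h; exact ⟨by linarith, by linarith⟩
  have e4 : (I.filter (fun v => m < ψ v)).filter (fun v => s ≤ ψ v - m) =
      I.filter (fun v => s + m ≤ ψ v) := by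
    rw [Finset.filter_filter]
    refine Finset.filter_congr fun v _ => ?_
    constructor
    · rintro ⟨_, h⟩; linarith
    · intro h; exact ⟨by linarith, by linarith⟩
  rw [e3, e4]
  exact h5

/-- independent sets -/
def Ind (G : SimpleGraph V) (I : Finset V) : Prop := ∀ u ∈ I, ∀ v ∈ I, ¬ G.Adj u v

/-- an independent set of maximal weight and the exchange inequality -/
theorem exists_ind (G : SimpleGraph V) (side : V → Bool)
    (hs : ∀ u v, G.Adj u v → side u ≠ side v) (w : V → ℝ) (X : Finset V) :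
    ∃ I ⊆ X, Ind G I ∧ ∀ Y ⊆ X \ I, (∃ b, ∀ v ∈ Y, side v = b) →
      ∀ N ⊆ I, (∀ u ∈ I, ∀ v ∈ Y, G.Adj u v → u ∈ N) → ∑ v ∈ Y, w v ≤ ∑ v ∈ N, w v := by
  classical
  obtain ⟨I, hI, hmax⟩ := (X.powerset.filter (fun I => Ind G I)).exists_max_image
    (fun I => ∑ v ∈ I, w v) ⟨∅, Finset.mem_filter.2 ⟨Finset.empty_mem_powerset _,
      fun u hu => absurd hu (Finset.notMem_empty u)⟩⟩
  rw [Finset.mem_filter, Finset.mem_powerset] at hI
  refine ⟨I, hI.1, hI.2, ?_⟩
  rintro Y hY ⟨b, hb⟩ N hN hNN
  have hd : Disjoint (I \ N) Y := by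
    rw [Finset.disjoint_left]
    intro x hx hy
    exact (Finset.mem_sdiff.1 (hY hy)).2 (Finset.mem_sdiff.1 hx).1
  have hJ := hmax (I \ N ∪ Y) (Finset.mem_filter.2 ⟨?_, ?_⟩)
  · rw [Finset.sum_union hd] at hJ
    have := Finset.sum_sdiff (f := w) hN
    linarith
  · rw [Finset.mem_powerset]
    apply Finset.union_subset
    · exact Finset.sdiff_subset.trans hI.1
    · exact hY.trans Finset.sdiff_subset
  · intro u hu v hv huv
    rcases Finset.mem_union.1 hu with h1 | h1 <;> rcases Finset.mem_union.1 hv with h2 | h2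
    · exact hI.2 u (Finset.mem_sdiff.1 h1).1 v (Finset.mem_sdiff.1 h2).1 huv
    · exact (Finset.mem_sdiff.1 h1).2 (hNN u (Finset.mem_sdiff.1 h1).1 v h2 huv)
    · exact (Finset.mem_sdiff.1 h2).2 (hNN v (Finset.mem_sdiff.1 h2).1 u h1 huv.symm)
    · exact hs u v huv ((hb u h1).trans (hb v h2).symm)

/-- the potential does not increase -/
theorem step (G : SimpleGraph V) (side : V → Bool)
    (hs : ∀ u v, G.Adj u v → side u ≠ side v) (w : V → ℝ) (hw : ∀ v, 0 ≤ w v) (X : Finset V) :
    ∃ I ⊆ X, Ind G I ∧ ∀ (z : ℝ) (g : V → ℝ), 0 ≤ z → (∀ v, 0 ≤ g v) →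
      (∀ u v, G.Adj u v → z * g u ≤ g v) →
        z * ∑ v ∈ X \ I, w v * g v ≤ ∑ v ∈ I, w v * g v := by
  classical
  obtain ⟨I, hIX, hI, hex⟩ := exists_ind G side hs w X
  refine ⟨I, hIX, hI, ?_⟩
  intro z g hz hg hzg
  -- both sides separately
  have key : ∀ b : Bool, ∑ v ∈ (X \ I) with side v = b, w v * (z * g v) ≤
      ∑ v ∈ I with side v ≠ b, w v * g v := by
    intro b
    refine layer w hw _ _ _ _ _ rfl (fun v _ => mul_nonneg hz (hg v)) (fun v _ => hg v) ?_
    intro s _
    rw [Finset.filter_filter, Finset.filter_filter]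
    apply hex
    · exact Finset.filter_subset _ _
    · exact ⟨b, fun v hv => (Finset.mem_filter.1 hv).2.1⟩
    · exact Finset.filter_subset _ _
    · intro u hu v hv huv
      have h1 := (Finset.mem_filter.1 hv).2
      refine Finset.mem_filter.2 ⟨hu, ?_, ?_⟩
      · intro hub
        exact hs u v huv (hub.trans h1.1.symm)
      · exact h1.2.trans (hzg v u huv.symm)
  have h1 := key true
  have h2 := key false
  have e1 : ∑ v ∈ X \ I, w v * (z * g v) =
      ∑ v ∈ (X \ I) with side v = true, w v * (z * g v) +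
        ∑ v ∈ (X \ I) with side v = false, w v * (z * g v) := by
    rw [← Finset.sum_filter_add_sum_filter_not (X \ I) (fun v => side v = true)]
    congr 1
    refine Finset.sum_congr (Finset.filter_congr fun v _ => ?_) fun _ _ => rfl
    simp
  have e2 : ∑ v ∈ I, w v * g v =
      ∑ v ∈ I with side v ≠ true, w v * g v + ∑ v ∈ I with side v ≠ false, w v * g v := by
    rw [← Finset.sum_filter_add_sum_filter_not I (fun v => side v ≠ true)]
    congr 1
    refine Finset.sum_congr (Finset.filter_congr fun v _ => ?_) fun _ _ => rfl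
    simp
  have e3 : z * ∑ v ∈ X \ I, w v * g v = ∑ v ∈ X \ I, w v * (z * g v) := by
    rw [Finset.mul_sum]
    exact Finset.sum_congr rfl fun v _ => by ring
  linarith

end Pool.Agent.LCD.H6
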