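import Pool.Agent.Helper6_LCD.Proc

/-!
# The doubled graph (MP_e6d343_co)
-/

namespace Pool.Agent.LCD.H6

open Finset

/-- greedy colouring of the sparse part -/
theorem greedy {V C : Type*} [Fintype V] [DecidableEq V] [DecidableEq C] (G₂ : SimpleGraph V)
    (ρ : V → ℕ) (hρ : Function.Injective ρ) (d : ℕ)
    (hd : ∀ v, {u | G₂.Adj v u ∧ ρ u < ρ v}.ncard ≤ d) (T : V × Bool → Finset C)
    (hT : ∀ p, (T p).card = 2 * d + 1) :
    ∃ f : V × Bool → C, (∀ p, f p ∈ T p) ∧ ∀ p q : V × Bool, G₂.Adj p.1 q.1 → f p ≠ f q := by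
  classical
  have key : ∀ N : ℕ, ∃ f : V × Bool → C, (∀ p, ρ p.1 < N → f p ∈ T p) ∧
      ∀ p q : V × Bool, ρ p.1 < N → ρ q.1 < N → G₂.Adj p.1 q.1 → f p ≠ f q := by
    intro N
    induction N with
    | zero =>
      have hne : ∀ p, (T p).Nonempty := fun p => by
        rw [← Finset.card_pos, hT p]; omega
      exact ⟨fun p => (hne p).choose, fun p hp => absurd hp (Nat.not_lt_zero _),
        fun p q hp => absurd hp (Nat.not_lt_zero _)⟩
    | succ N ih =>
      obtain ⟨f, hf1, hf2⟩ := ih
      by_cases hv : ∃ v, ρ v = N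
      · obtain ⟨v, hv⟩ := hv
        set E : Finset V := Finset.univ.filter (fun u => G₂.Adj v u ∧ ρ u < ρ v) with hE
        have hEc : E.card ≤ d := by
          have h1 := hd v
          have h2 : {u | G₂.Adj v u ∧ ρ u < ρ v} = (E : Set V) := by
            ext u; simp [hE]
          rw [h2, Set.ncard_coe_finset] at h1
          exact h1
        set B : Finset C := (E ×ˢ (Finset.univ : Finset Bool)).image f with hB
        have hBc : B.card ≤ 2 * d := by
          refine Finset.card_image_le.trans ?_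
          rw [Finset.card_product, Finset.card_univ, Fintype.card_bool]
          omega
        have hex : ∀ i : Bool, ∃ c ∈ T (v, i), c ∉ B := by
          intro i
          by_contra hcon
          push Not at hcon
          have := Finset.card_le_card (show T (v, i) ⊆ B from fun c hc => hcon c hc)
          rw [hT] at this
          omega
        choose c hc1 hc2 using hex
        refine ⟨fun p => if p.1 = v then c p.2 else f p, ?_, ?_⟩
        · intro p hp
          by_cases h1 : p.1 = v
          · simp only [if_pos h1]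
            have : p = (v, p.2) := by rw [← h1]
            rw [this]
            exact hc1 p.2
          · simp only [if_neg h1]
            apply hf1
            have : ρ p.1 ≠ N := fun h2 => h1 (hρ (h2.trans hv.symm))
            omega
        · intro p q hp hq hpq
          have hlt : ∀ r : V × Bool, r.1 ≠ v → ρ r.1 < N + 1 → ρ r.1 < N := by
            intro r hr1 hr2
            have : ρ r.1 ≠ N := fun h2 => hr1 (hρ (h2.trans hv.symm))
            omega
          have hin : ∀ r : V × Bool, r.1 ≠ v → ρ r.1 < N + 1 → G₂.Adj v r.1 → f r ∈ B := by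
            intro r hr1 hr2 hr3
            refine Finset.mem_image.2 ⟨r, Finset.mem_product.2 ⟨?_, Finset.mem_univ _⟩, rfl⟩
            refine Finset.mem_filter.2 ⟨Finset.mem_univ _, hr3, ?_⟩
            rw [hv]
            exact hlt r hr1 hr2
          by_cases h1 : p.1 = v <;> by_cases h2 : q.1 = v
          · rw [h1, h2] at hpq
            exact absurd hpq (G₂.loopless.irrefl v)
          · simp only [if_pos h1, if_neg h2]
            intro he
            apply hc2 p.2
            rw [he]
            exact hin q h2 hq (h1 ▸ hpq)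
          · simp only [if_neg h1, if_pos h2]
            intro he
            apply hc2 q.2
            rw [← he]
            exact hin p h1 hp (h2 ▸ hpq.symm)
          · simp only [if_neg h1, if_neg h2]
            exact hf2 p q (hlt p h1 hp) (hlt q h2 hq) hpq
      · refine ⟨f, fun p hp => hf1 p ?_, fun p q hp hq => hf2 p q ?_ ?_⟩
        · have : ρ p.1 ≠ N := fun h => hv ⟨_, h⟩
          omega
        · have : ρ p.1 ≠ N := fun h => hv ⟨_, h⟩
          omega
        · have : ρ q.1 ≠ N := fun h => hv ⟨_, h⟩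
          omega
  obtain ⟨f, h1, h2⟩ := key (Finset.univ.sup ρ + 1)
  have hb : ∀ v, ρ v < Finset.univ.sup ρ + 1 := fun v =>
    Nat.lt_succ_of_le (Finset.le_sup (Finset.mem_univ v))
  exact ⟨f, fun p => h1 p (hb _), fun p q => h2 p q (hb _) (hb _)⟩

open Classical in
/-- **The main theorem** for lists of size `t`. -/
theorem doubled {V : Type*} [Fintype V] (G G₁ G₂ : SimpleGraph V) (hG : G ≤ G₁ ⊔ G₂)
    (hb : G₁.Colorable 2) (t d : ℕ) (z θ : ℝ) (hz : 0 ≤ z) (hz1 : z ≤ 1) (hθ : 0 ≤ θ) (hθ1 : θ ≤ 1)
    (ρ : V → ℕ) (hρ : Function.Injective ρ)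
    (hd : ∀ v, {u | G₂.Adj v u ∧ ρ u < ρ v}.ncard ≤ d)
    (hsum : ∀ v, 2 * ∑ x with G₁.Reachable v x, z ^ G₁.dist v x - 1 + z ^ 2 <
      (1 + θ * z) ^ (t - 2 * d) * (1 - θ) ^ (2 * d)) {C : Type*}
    (L : V × Bool → Finset C) (hL : ∀ p, (L p).card = t) :
    ∃ f : V × Bool → C, (∀ p, f p ∈ L p) ∧ ∀ p q : V × Bool, G.Adj p.1 q.1 → f p ≠ f q := by
  obtain ⟨col⟩ := hb
  set side : V × Bool → Bool := fun p => decide (col p.1 = 0) with hside
  set H : SimpleGraph (V × Bool) := SimpleGraph.comap Prod.fst G₁ with hH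
  have hHadj : ∀ p q : V × Bool, H.Adj p q ↔ G₁.Adj p.1 q.1 := fun p q => Iff.rfl
  have hs : ∀ p q, H.Adj p q → side p ≠ side q := by
    intro p q hpq
    have h1 : col p.1 ≠ col q.1 := col.valid hpq
    simp only [hside]
    intro h2
    have h3 : (col p.1 = 0 ↔ col q.1 = 0) := by simpa using h2
    apply h1
    rcases Fin.exists_fin_two.1 ⟨col p.1, rfl⟩ with h4 | h4 <;>
      rcases Fin.exists_fin_two.1 ⟨col q.1, rfl⟩ with h5 | h5 <;> omega
  set g₀ : V → V → ℝ := fun v x => if G₁.Reachable v x then z ^ G₁.dist v x else 0 with hg₀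
  have hg00 : ∀ v x, 0 ≤ g₀ v x := by
    intro v x
    simp only [hg₀]
    split_ifs
    · exact pow_nonneg hz _
    · exact le_rfl
  have hg01 : ∀ v, g₀ v v = 1 := by
    intro v
    simp only [hg₀, if_pos (SimpleGraph.Reachable.refl (G := G₁) v), SimpleGraph.dist_self,
      pow_zero]
  have hg0z : ∀ v x y, G₁.Adj x y → z * g₀ v x ≤ g₀ v y := by
    intro v x y hxy
    simp only [hg₀]
    by_cases h1 : G₁.Reachable v x
    · have h2 : G₁.Reachable v y := h1.trans hxy.reachable
      rw [if_pos h1, if_pos h2, ← pow_succ']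
      apply pow_le_pow_of_le_one hz hz1
      have h3 := h1.dist_triangle_left y
      have h4 : G₁.dist x y ≤ 1 := by
        have := SimpleGraph.dist_le (G := G₁) hxy.toWalk
        simpa using this
      omega
    · rw [if_neg h1, mul_zero]
      split_ifs
      · exact pow_nonneg hz _
      · exact le_rfl
  have hg0a : ∀ v y, G₁.Adj v y → g₀ v y = z := by
    intro v y hxy
    simp only [hg₀, if_pos hxy.reachable]
    have : G₁.dist v y = 1 := SimpleGraph.dist_eq_one_iff_adj.2 hxy
    rw [this, pow_one]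
  set g : V × Bool → V × Bool → ℝ := fun p q =>
    if q = (p.1, !p.2) then z ^ 2 else g₀ p.1 q.1 with hg
  have hz2 : 0 ≤ z ^ 2 := pow_nonneg hz 2
  have hg0 : ∀ p q, 0 ≤ g p q := by
    intro p q
    simp only [hg]
    split_ifs
    · exact hz2
    · exact hg00 _ _
  have hg1 : ∀ p, 1 ≤ g p p := by
    intro p
    have h1 : p ≠ (p.1, !p.2) := by
      intro h
      have := congrArg Prod.snd h
      simp at this
    simp only [hg, if_neg h1]
    exact (hg01 p.1).ge
  have hgz : ∀ p x y, H.Adj x y → z * g p x ≤ g p y := by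
    intro p x y hxy
    have hxy' : G₁.Adj x.1 y.1 := hxy
    simp only [hg]
    by_cases h1 : x = (p.1, !p.2)
    · have h2 : y ≠ (p.1, !p.2) := by
        rintro rfl
        rw [h1] at hxy'
        exact G₁.loopless.irrefl _ hxy'
      rw [if_pos h1, if_neg h2]
      have h3 : G₁.Adj p.1 y.1 := by rw [h1] at hxy'; exact hxy'
      rw [hg0a _ _ h3]
      have : z ^ 2 ≤ 1 := pow_le_one₀ hz hz1
      nlinarith
    · rw [if_neg h1]
      by_cases h2 : y = (p.1, !p.2)
      · rw [if_pos h2]
        have h3 : G₁.Adj p.1 x.1 := by rw [h2] at hxy'; exact hxy'.symm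
        rw [hg0a _ _ h3]
        apply le_of_eq; ring
      · rw [if_neg h2]
        exact hg0z _ _ _ hxy'
  have hsum2 : ∀ p : V × Bool, ∑ q, g p q =
      2 * ∑ x with G₁.Reachable p.1 x, z ^ G₁.dist p.1 x - 1 + z ^ 2 := by
    intro p
    have e1 : ∀ q, g p q = g₀ p.1 q.1 + (if q = (p.1, !p.2) then z ^ 2 - 1 else 0) := by
      intro q
      simp only [hg]
      split_ifs with h
      · rw [h, hg01]; ring
      · ring
    rw [Finset.sum_congr rfl fun q _ => e1 q, Finset.sum_add_distrib, Finset.sum_ite_eq',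
      if_pos (Finset.mem_univ _), Fintype.sum_prod_type]
    simp only [Fintype.sum_bool]
    have e2 : ∑ x, (g₀ p.1 x + g₀ p.1 x) = 2 * ∑ x with G₁.Reachable p.1 x, z ^ G₁.dist p.1 x := by
      rw [Finset.sum_filter, Finset.mul_sum]
      exact Finset.sum_congr rfl fun x _ => by rw [← two_mul]
    rw [e2]
    ring
  obtain ⟨T, hT1, hT2⟩ := proc H side hs z θ hz hθ hθ1 g hg0 hg1 hgz
    (Finset.univ.biUnion L) L (fun _ => 2 * d + 1) (fun _ => 1)
    (fun v => Finset.subset_biUnion_of_mem L (Finset.mem_univ v)) (fun _ => zero_le_one) (by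
      intro p _
      have e1 : (Finset.univ.filter fun _ : V × Bool => 1 ≤ 2 * d + 1) = Finset.univ :=
        Finset.filter_true_of_mem fun _ _ => by omega
      rw [e1, hL p]
      simp only [one_mul]
      rw [hsum2 p]
      have e2 : t + 1 - (2 * d + 1) = t - 2 * d := by omega
      have e3 : 2 * d + 1 - 1 = 2 * d := by omega
      rw [e2, e3]
      exact hsum p.1)
  obtain ⟨f, hf1, hf2⟩ := greedy G₂ ρ hρ d hd T (fun p => (hT1 p).2)
  refine ⟨f, fun p => (hT1 p).1 (hf1 p), ?_⟩
  intro p q hpq
  rcases hG hpq with h | h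
  · intro he
    exact Finset.disjoint_left.1 (hT2 p q h) (hf1 p) (he ▸ hf1 q)
  · exact hf2 p q h

end Pool.Agent.LCD.H6
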