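import Pool.Agent.Helper6_LCD.Core

/-!
# The painting process (MP_e6d343_co)

From lists `L v` one can choose sets `T v` of size `n v`, disjoint on the edges, if a potential is small.
-/

namespace Pool.Agent.LCD.H6

open Finset

variable {V : Type*} [DecidableEq V] [Fintype V]

theorem proc (G : SimpleGraph V) (side : V → Bool)
    (hs : ∀ u v, G.Adj u v → side u ≠ side v) (z θ : ℝ) (hz : 0 ≤ z) (hθ : 0 ≤ θ) (hθ1 : θ ≤ 1)
    (g : V → V → ℝ) (hg : ∀ v x, 0 ≤ g v x) (hg1 : ∀ v, 1 ≤ g v v)
    (hgz : ∀ v x y, G.Adj x y → z * g v x ≤ g v y) {C : Type*} [DecidableEq C] :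
    ∀ (S : Finset C) (L : V → Finset C) (n : V → ℕ) (w : V → ℝ), (∀ v, L v ⊆ S) →
      (∀ v, 0 ≤ w v) →
      (∀ v, 1 ≤ n v → ∑ x with 1 ≤ n x, w x * g v x <
        w v * (1 + θ * z) ^ ((L v).card + 1 - n v) * (1 - θ) ^ (n v - 1)) →
      ∃ T : V → Finset C, (∀ v, T v ⊆ L v ∧ (T v).card = n v) ∧
        ∀ u v, G.Adj u v → Disjoint (T u) (T v) := by
  classical
  intro S
  -- lists are long enough
  have long : ∀ (L : V → Finset C) (n : V → ℕ) (w : V → ℝ), (∀ v, 0 ≤ w v) →
      (∀ v, 1 ≤ n v → ∑ x with 1 ≤ n x, w x * g v x <
        w v * (1 + θ * z) ^ ((L v).card + 1 - n v) * (1 - θ) ^ (n v - 1)) →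
      ∀ v, n v ≤ (L v).card := by
    intro L n w hw h v
    by_contra hlt
    have h1 : 1 ≤ n v := by omega
    have h2 := h v h1
    have h3 : (L v).card + 1 - n v = 0 := by omega
    rw [h3, pow_zero, mul_one] at h2
    have h4 : w v * g v v ≤ ∑ x with 1 ≤ n x, w x * g v x :=
      Finset.single_le_sum (f := fun x => w x * g v x)
        (fun x _ => mul_nonneg (hw x) (hg v x)) (Finset.mem_filter.2 ⟨Finset.mem_univ v, h1⟩)
    have h5 : w v * (1 - θ) ^ (n v - 1) ≤ w v * 1 :=
      mul_le_mul_of_nonneg_left (pow_le_one₀ (by linarith) (by linarith)) (hw v)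
    have h6 : w v * 1 ≤ w v * g v v := mul_le_mul_of_nonneg_left (hg1 v) (hw v)
    linarith
  induction S using Finset.induction_on with
  | empty =>
    intro L n w hL hw h
    refine ⟨fun _ => ∅, fun v => ⟨Finset.empty_subset _, ?_⟩, fun _ _ _ => Finset.disjoint_empty_left _⟩
    have h1 := long L n w hw h v
    have h2 : (L v).card = 0 := Finset.card_eq_zero.2 (Finset.subset_empty.1 (hL v))
    rw [Finset.card_empty]
    omega
  | insert c S hc ih =>
    intro L n w hL hw h
    have hlen := long L n w hw h
    set X : Finset V := Finset.univ.filter (fun v => 1 ≤ n v ∧ c ∈ L v) with hX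
    obtain ⟨I, hIX, hI, hstep⟩ := step G side hs w hw X
    have hIn : ∀ v ∈ I, 1 ≤ n v ∧ c ∈ L v := fun v hv =>
      (Finset.mem_filter.1 (hIX hv)).2
    set L' : V → Finset C := fun v => (L v).erase c with hL'
    set n' : V → ℕ := fun v => if v ∈ I then n v - 1 else n v with hn'
    set w' : V → ℝ := fun v => if v ∈ I then (1 - θ) * w v
      else if v ∈ X then (1 + θ * z) * w v else w v with hw'
    have hz1 : 0 ≤ θ * z := mul_nonneg hθ hz
    have hw'0 : ∀ v, 0 ≤ w' v := by
      intro v
      simp only [hw']
      split_ifs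
      · exact mul_nonneg (by linarith) (hw v)
      · exact mul_nonneg (by linarith) (hw v)
      · exact hw v
    have hL'S : ∀ v, L' v ⊆ S := by
      intro v a ha
      have h1 := Finset.mem_erase.1 ha
      rcases Finset.mem_insert.1 (hL v h1.2) with h2 | h2
      · exact absurd h2 h1.1
      · exact h2
    have hcond : ∀ v, 1 ≤ n' v → ∑ x with 1 ≤ n' x, w' x * g v x <
        w' v * (1 + θ * z) ^ ((L' v).card + 1 - n' v) * (1 - θ) ^ (n' v - 1) := by
      intro v hv
      -- the right hand side is unchanged
      have hnv : 1 ≤ n v := by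
        simp only [hn'] at hv
        split_ifs at hv <;> omega
      have hR : w' v * (1 + θ * z) ^ ((L' v).card + 1 - n' v) * (1 - θ) ^ (n' v - 1) =
          w v * (1 + θ * z) ^ ((L v).card + 1 - n v) * (1 - θ) ^ (n v - 1) := by
        have hln := hlen v
        by_cases h1 : v ∈ I
        · have hcL := (hIn v h1).2
          have e1 : (L' v).card = (L v).card - 1 := Finset.card_erase_of_mem hcL
          have hpos : 0 < (L v).card := Finset.card_pos.2 ⟨c, hcL⟩
          simp only [hn', if_pos h1] at hv
          simp only [hn', hw', if_pos h1, e1]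
          have e2 : (L v).card - 1 + 1 - (n v - 1) = (L v).card + 1 - n v := by omega
          have e3 : n v - 1 = (n v - 1 - 1) + 1 := by omega
          rw [e2]
          conv_rhs => rw [e3, pow_succ]
          ring
        · by_cases h2 : v ∈ X
          · have hcL := (Finset.mem_filter.1 h2).2.2
            have e1 : (L' v).card = (L v).card - 1 := Finset.card_erase_of_mem hcL
            have hpos : 0 < (L v).card := Finset.card_pos.2 ⟨c, hcL⟩
            simp only [hn', hw', if_neg h1, if_pos h2, e1]
            have e2 : (L v).card - 1 + 1 - n v = (L v).card - n v := by omega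
            have e3 : (L v).card + 1 - n v = ((L v).card - n v) + 1 := by omega
            rw [e2, e3, pow_succ]
            ring
          · have hcL : c ∉ L v := fun hh =>
              h2 (Finset.mem_filter.2 ⟨Finset.mem_univ v, hnv, hh⟩)
            have e1 : L' v = L v := Finset.erase_eq_of_notMem hcL
            simp only [hn', hw', if_neg h1, if_neg h2, e1]
      rw [hR]
      refine lt_of_le_of_lt ?_ (h v hnv)
      -- the potential does not increase
      have hst := hstep z (g v) hz (hg v) (hgz v)
      have hst2 : θ * (z * ∑ x ∈ X \ I, w x * g v x) ≤ θ * ∑ x ∈ I, w x * g v x :=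
        mul_le_mul_of_nonneg_left hst hθ
      have hA : ∑ x with 1 ≤ n' x, w' x * g v x ≤
          ∑ x with 1 ≤ n x, (w x * g v x + (if x ∈ X \ I then θ * z * (w x * g v x) else 0) -
            (if x ∈ I then θ * (w x * g v x) else 0)) := by
        rw [Finset.sum_filter, Finset.sum_filter]
        refine Finset.sum_le_sum fun x _ => ?_
        have h0 : 0 ≤ w x * g v x := mul_nonneg (hw x) (hg v x)
        by_cases h1 : x ∈ I
        · have hnx := (hIn x h1).1
          have h2 : x ∉ X \ I := fun hh => (Finset.mem_sdiff.1 hh).2 h1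
          simp only [hn', hw', if_pos h1, if_neg h2, if_pos hnx, add_zero]
          have e : w x * g v x - θ * (w x * g v x) = (1 - θ) * (w x * g v x) := by ring
          split_ifs
          · apply le_of_eq; ring
          · rw [e]; exact mul_nonneg (by linarith) h0
        · simp only [hn', hw', if_neg h1, sub_zero]
          by_cases h2 : x ∈ X
          · have h3 : x ∈ X \ I := Finset.mem_sdiff.2 ⟨h2, h1⟩
            simp only [if_pos h2, if_pos h3]
            split_ifs
            · apply le_of_eq; ring
            · exact le_rfl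
          · have h3 : x ∉ X \ I := fun hh => h2 (Finset.mem_sdiff.1 hh).1
            simp only [if_neg h2, if_neg h3, add_zero]
            exact le_rfl
      refine hA.trans ?_
      rw [Finset.sum_sub_distrib, Finset.sum_add_distrib]
      have hB : ∑ x with 1 ≤ n x, (if x ∈ X \ I then θ * z * (w x * g v x) else 0) =
          θ * (z * ∑ x ∈ X \ I, w x * g v x) := by
        rw [← Finset.sum_filter, Finset.filter_filter, Finset.mul_sum, Finset.mul_sum]
        have : (Finset.univ.filter fun x => 1 ≤ n x ∧ x ∈ X \ I) = X \ I := by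
          ext x
          simp only [Finset.mem_filter, Finset.mem_univ, true_and]
          constructor
          · exact fun hh => hh.2
          · intro hh
            exact ⟨(Finset.mem_filter.1 (Finset.mem_sdiff.1 hh).1).2.1, hh⟩
        rw [this]
        exact Finset.sum_congr rfl fun x _ => by ring
      have hD : ∑ x with 1 ≤ n x, (if x ∈ I then θ * (w x * g v x) else 0) =
          θ * ∑ x ∈ I, w x * g v x := by
        rw [← Finset.sum_filter, Finset.filter_filter, Finset.mul_sum]
        have : (Finset.univ.filter fun x => 1 ≤ n x ∧ x ∈ I) = I := by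
          ext x
          simp only [Finset.mem_filter, Finset.mem_univ, true_and]
          exact ⟨fun hh => hh.2, fun hh => ⟨(hIn x hh).1, hh⟩⟩
        rw [this]
      rw [hB, hD]
      linarith
    obtain ⟨T, hT1, hT2⟩ := ih L' n' w' hL'S hw'0 hcond
    refine ⟨fun v => if v ∈ I then insert c (T v) else T v, ?_, ?_⟩
    · intro v
      have hcT : c ∉ T v := fun hh => (Finset.mem_erase.1 ((hT1 v).1 hh)).1 rfl
      have hTL : T v ⊆ L v := (hT1 v).1.trans (Finset.erase_subset _ _)
      have hcard := (hT1 v).2
      by_cases hv : v ∈ I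
      · simp only [hn', if_pos hv] at hcard
        simp only [if_pos hv]
        refine ⟨Finset.insert_subset (hIn v hv).2 hTL, ?_⟩
        rw [Finset.card_insert_of_notMem hcT, hcard]
        have := (hIn v hv).1
        omega
      · simp only [hn', if_neg hv] at hcard
        simp only [if_neg hv]
        exact ⟨hTL, hcard⟩
    · intro u v huv
      have hcT : ∀ v, c ∉ T v := fun v hh => (Finset.mem_erase.1 ((hT1 v).1 hh)).1 rfl
      have hd := hT2 u v huv
      by_cases hu : u ∈ I <;> by_cases hv : v ∈ I
      · exact absurd huv (hI u hu v hv)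
      · simp only [if_pos hu, if_neg hv]
        rw [Finset.disjoint_insert_left]
        exact ⟨hcT v, hd⟩
      · simp only [if_neg hu, if_pos hv]
        rw [Finset.disjoint_insert_right]
        exact ⟨hcT u, hd⟩
      · simp only [if_neg hu, if_neg hv]
        exact hd

end Pool.Agent.LCD.H6
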